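import Pool.Agent.Y795.PiH.Stm

/-!
# Reduction of the linear forms modulo `p` (task PH7)
-/

set_option autoImplicit false

open Polynomial

namespace Pool.Agent.Y858.PiH

open Pool.Agent.H326R2.Pi Pool.Agent.Y795.PiH

section modp

variable {p : ℕ} [Fact p.Prime]

/-- the extraction of the coefficients at `-1` modulo `p`, multiplied by `X` -/
noncomputable def kap (p : ℕ) (f : (ZMod p)[X]) : (ZMod p)[X] := contract p (X * f)

theorem p_ne : p ≠ 0 := (Fact.out : p.Prime).ne_zero

theorem kap_add (f g : (ZMod p)[X]) : kap p (f + g) = kap p f + kap p g := by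
  unfold kap
  rw [mul_add, contract_add p_ne]

theorem kap_mul_expand (f g : (ZMod p)[X]) :
    kap p (f * expand (ZMod p) p g) = kap p f * g := by
  unfold kap
  rw [← mul_assoc, contract_mul_expand p_ne]

theorem kap_C_mul (c : ZMod p) (f : (ZMod p)[X]) : kap p (C c * f) = C c * kap p f := by
  have h := kap_mul_expand f (C c)
  rw [expand_C] at h
  rw [mul_comm, h, mul_comm]

theorem kap_sub (f g : (ZMod p)[X]) : kap p (f - g) = kap p f - kap p g := by
  have h : f - g = f + C (-1) * g := by rw [C_neg, C_1]; ring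
  rw [h, kap_add, kap_C_mul, C_neg, C_1]; ring

theorem kap_derivative (f : (ZMod p)[X]) : kap p (derivative f) = 0 := by
  unfold kap
  ext n
  rw [coeff_contract p_ne, coeff_zero]
  rcases Nat.eq_zero_or_pos n with rfl | hn
  · simp
  · have hp : 0 < p := (Fact.out : p.Prime).pos
    have h1 : n * p = (n * p - 1) + 1 := by
      have : 0 < n * p := Nat.mul_pos hn hp
      omega
    rw [h1, coeff_X_mul, coeff_derivative, ← h1]
    have h2 : (((n * p - 1 : ℕ) : ZMod p) + 1) = ((n * p : ℕ) : ZMod p) := by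
      conv_rhs => rw [h1]
      push_cast
      ring
    rw [h2]
    simp

/-- `D = X² - 8` -/
noncomputable abbrev DD (p : ℕ) : (ZMod p)[X] := X ^ 2 - 8

theorem natDegree_DD : (DD p).natDegree ≤ 2 := by
  unfold DD
  compute_degree

theorem odd_p (h : 11 ≤ p) : 2 * ((p - 1) / 2) = p - 1 := by
  have h1 := (Fact.out : p.Prime).eq_two_or_odd
  omega

theorem EE_sq (h : 11 ≤ p) : EE p * EE p = DD p ^ (p - 1) := by
  unfold EE DD
  rw [← pow_add]
  congr 1
  have := odd_p h
  omega

theorem DD_monic : (DD p).Monic := by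
  unfold DD
  have h : (X ^ 2 - 8 : (ZMod p)[X]) = X ^ 2 - C 8 := by rw [map_ofNat]
  rw [h]
  exact monic_X_pow_sub_C _ (by norm_num)

theorem natDegree_DD' : (DD p).natDegree = 2 := by
  unfold DD
  have h : (X ^ 2 - 8 : (ZMod p)[X]) = X ^ 2 - C 8 := by rw [map_ofNat]
  rw [h]
  exact natDegree_X_pow_sub_C

theorem EE_monic : (EE p).Monic := by
  unfold EE
  exact DD_monic.pow _

theorem natDegree_EE (h : 11 ≤ p) : (EE p).natDegree = p - 1 := by
  unfold EE
  rw [show (X ^ 2 - 8 : (ZMod p)[X]) = DD p from rfl, DD_monic.natDegree_pow, natDegree_DD']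
  have := odd_p h
  omega

/-- `D^(p-1)` -/
theorem contract_DDpow (h : 11 ≤ p) : contract p (DD p ^ (p - 1)) = 1 := by
  have h1 : DD p ^ (p - 1) = expand (ZMod p) 2 ((X - C 8) ^ (p - 1)) := by
    rw [map_pow, map_sub, expand_X, expand_C]
    unfold DD
    rw [map_ofNat]
  have hp : p.Prime := Fact.out
  have hodd : p % 2 = 1 := by
    rcases hp.eq_two_or_odd with h2 | h2
    · omega
    · exact h2
  ext n
  rw [coeff_contract p_ne, h1, coeff_expand (by norm_num), coeff_one]
  by_cases h2 : 2 ∣ n * p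
  · rw [if_pos h2]
    have h3 : 2 ∣ n := (Nat.Coprime.dvd_mul_right (by
      rw [Nat.coprime_two_left, Nat.odd_iff]; exact hodd)).1 h2
    obtain ⟨m, rfl⟩ := h3
    have h4 : 2 * m * p / 2 = m * p := by
      rw [mul_assoc, Nat.mul_div_cancel_left _ (by norm_num)]
    rw [h4]
    rcases Nat.eq_zero_or_pos m with rfl | hm
    · simp only [mul_zero, zero_mul, if_true]
      rw [coeff_zero_eq_eval_zero, eval_pow, eval_sub, eval_X, eval_C, zero_sub]
      apply ZMod.pow_card_sub_one_eq_one
      intro h8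
      have h9 : ((8 : ℕ) : ZMod p) = 0 := by
        rw [neg_eq_zero] at h8
        exact_mod_cast h8
      rw [ZMod.natCast_eq_zero_iff] at h9
      have := Nat.le_of_dvd (by norm_num) h9
      omega
    · rw [if_neg (by omega)]
      apply coeff_eq_zero_of_natDegree_lt
      refine (natDegree_pow_le).trans_lt ?_
      rw [natDegree_X_sub_C]
      have : p ≤ m * p := Nat.le_mul_of_pos_left p hm
      omega
  · rw [if_neg h2, if_neg]
    rintro rfl
    exact h2 (by simp)

theorem expand_DD : expand (ZMod p) p (DD p) = DD p ^ p := ZMod.expand_card _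

theorem kap_XD (h : 11 ≤ p) : kap p (X * DD p ^ (p - 1)) = X ^ 2 := by
  unfold kap
  have h1 : X * (X * DD p ^ (p - 1)) = 1 * expand (ZMod p) p (DD p) +
      DD p ^ (p - 1) * expand (ZMod p) p (C 8) := by
    rw [expand_DD, expand_C, map_ofNat]
    have h2 : DD p ^ p = DD p ^ (p - 1) * DD p := by
      rw [← pow_succ]
      congr 1
      omega
    rw [h2]
    unfold DD
    ring
  rw [h1, contract_add p_ne, contract_mul_expand p_ne, contract_mul_expand p_ne,
    contract_DDpow h]
  have h3 : contract p (1 : (ZMod p)[X]) = 1 := by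
    rw [← C_1, contract_C]
  rw [h3, map_ofNat]
  unfold DD
  ring

theorem kap_Xp (h : 11 ≤ p) : kap p (X ^ (p - 1)) = X := by
  unfold kap
  have h1 : (X * X ^ (p - 1) : (ZMod p)[X]) = 1 * expand (ZMod p) p X := by
    rw [expand_X, ← pow_succ', one_mul]
    congr 1
    omega
  rw [h1, contract_mul_expand p_ne, ← C_1, contract_C, C_1, one_mul]

theorem kap_EE (h : 11 ≤ p) : kap p (EE p) = X := by
  unfold kap
  ext n
  rw [coeff_contract p_ne, coeff_X]
  rcases Nat.eq_zero_or_pos n with rfl | hn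
  · simp
  · have h1 : n * p = (n * p - 1) + 1 := by
      have : 0 < n * p := Nat.mul_pos hn (by omega)
      omega
    rw [h1, coeff_X_mul]
    by_cases hn1 : 1 = n
    · subst hn1
      rw [if_pos rfl]
      have h2 : (EE p).coeff (EE p).natDegree = 1 := EE_monic
      rw [natDegree_EE h] at h2
      rw [one_mul]
      exact h2
    · rw [if_neg hn1]
      apply coeff_eq_zero_of_natDegree_lt
      rw [natDegree_EE h]
      have : 2 * p ≤ n * p := Nat.mul_le_mul_right p (by omega)
      omega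

theorem kap_rho (h : 11 ≤ p) (R : (ZMod p)[X]) (hR : R.natDegree ≤ 2 * p) :
    kap p (EE p * R) = X * (C (rho p R 0) + C (rho p R 1) * X + C (rho p R 2) * X ^ 2) := by
  unfold kap
  ext n
  rw [coeff_contract p_ne]
  rcases n with _ | n
  · simp
  · have h1 : (n + 1) * p = (p * n + (p - 1)) + 1 := by
      have : 0 < p := by omega
      rw [add_mul, one_mul, mul_comm p n]
      omega
    rw [h1, coeff_X_mul, coeff_X_mul]
    have h2 : (EE p * R).coeff (p * n + (p - 1)) = rho p R n := rfl
    rw [h2]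
    have h3 : (C (rho p R 0) + C (rho p R 1) * X + C (rho p R 2) * X ^ 2).coeff n =
        if n = 0 then rho p R 0 else if n = 1 then rho p R 1 else if n = 2 then rho p R 2
          else 0 := by
      simp only [coeff_add, coeff_C_mul, coeff_C, coeff_X, coeff_X_pow]
      rcases n with _ | _ | _ | n
      · simp
      · simp
      · simp
      · simp
    rw [h3]
    rcases n with _ | _ | _ | n
    · simp
    · simp
    · simp
    · rw [if_neg (by omega), if_neg (by omega), if_neg (by omega)]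
      unfold rho
      apply coeff_eq_zero_of_natDegree_lt
      refine natDegree_mul_le.trans_lt ?_
      rw [natDegree_EE h]
      have : p * 3 ≤ p * (n + 1 + 1 + 1) := Nat.mul_le_mul_left p (by omega)
      omega

theorem derivative_DDpow (m : ℕ) : derivative (DD p ^ m) * DD p = C (2 * (m : ZMod p)) * X * DD p ^ m := by
  rcases m with _ | m
  · simp
  · rw [derivative_pow]
    have : derivative (DD p) = 2 * X := by
      unfold DD
      simp
      norm_num
    rw [this]
    simp only [Nat.cast_add, Nat.cast_one, map_add, map_mul, map_one, map_natCast, map_ofNat,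
      Nat.add_sub_cancel]
    rw [pow_succ (DD p) m]
    ring

/-- the third term -/
theorem kap_EEL (h : 11 ≤ p) (U : (ZMod p)[X]) :
    kap p (EE p * (DD p * derivative U + X * U)) = 0 := by
  have h1 : EE p * (DD p * derivative U + X * U) = derivative (DD p ^ ((p - 1) / 2 + 1) * U) := by
    rw [derivative_mul, derivative_pow]
    have : derivative (DD p) = 2 * X := by
      unfold DD
      simp
      norm_num
    rw [this, Nat.add_sub_cancel]
    have h2 : EE p = DD p ^ ((p - 1) / 2) := rfl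
    have h3 : ((((p - 1) / 2 + 1 : ℕ) : ZMod p) * 2) = 1 := by
      have h4 : (((p - 1) / 2 + 1 : ℕ) : ZMod p) * 2 = (((2 * ((p - 1) / 2) + 2 : ℕ)) : ZMod p) := by
        push_cast
        ring
      rw [h4, odd_p h]
      have h5 : p - 1 + 2 = p + 1 := by omega
      rw [h5]
      simp
    have h4 : (C (((p - 1) / 2 + 1 : ℕ) : ZMod p) : (ZMod p)[X]) * 2 = 1 := by
      have h6 := congrArg (C : ZMod p → (ZMod p)[X]) h3
      rw [C_mul, map_one, map_ofNat] at h6
      exact h6
    rw [h2, pow_succ]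
    linear_combination (-(DD p ^ ((p - 1) / 2) * X * U)) * h4
  rw [h1, kap_derivative]

end modp

/-- the expansion of the operator -/
theorem LL_EG (p : ℕ) (hp : 2 * ((p - 1) / 2) = p - 1) (hp1 : 1 ≤ p) (G : ℤ[X]) :
    LL (2 * p) ((X ^ 2 - 8) ^ ((p - 1) / 2) * expand ℤ p G) =
      (p : ℤ[X]) * ((X ^ 2 - 8) ^ ((p - 1) / 2) *
        (-3 * X * expand ℤ p G + (X ^ 2 - 8) * X ^ (p - 1) * expand ℤ p (derivative G))) := by
  unfold LL
  rw [derivative_mul, derivative_expand]
  have h1 : ((X ^ 2 - 8) * derivative ((X ^ 2 - 8 : ℤ[X]) ^ ((p - 1) / 2))) =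
      ((p : ℤ[X]) - 1) * X * (X ^ 2 - 8) ^ ((p - 1) / 2) := by
    have h2 : derivative (X ^ 2 - 8 : ℤ[X]) = 2 * X := by
      simp
    have h3 : ((p : ℤ[X]) - 1) = 2 * (((p - 1) / 2 : ℕ) : ℤ[X]) := by
      have h4 : ((2 * ((p - 1) / 2) : ℕ) : ℤ[X]) = ((p - 1 : ℕ) : ℤ[X]) := by rw [hp]
      rw [Nat.cast_sub hp1] at h4
      push_cast at h4 ⊢
      rw [← h4]
    rw [h3]
    generalize (p - 1) / 2 = m
    rcases m with _ | m
    · simp
    · rw [derivative_pow, h2, Nat.add_sub_cancel]
      rw [pow_succ (X ^ 2 - 8 : ℤ[X]) m]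
      simp only [map_natCast]
      ring
  push_cast
  linear_combination expand ℤ p G * h1

/-- the power of `p` in the least common multiple -/
theorem lcm_eq (p : ℕ) (hp : p.Prime) (h : 11 ≤ p) :
    ∃ L' : ℕ, Nat.lcmUpto (4 * p) = p * L' ∧ ¬ p ∣ L' := by
  have h1 : (Nat.lcmUpto (4 * p)).factorization p = 1 := by
    rw [Nat.factorization_lcmUpto _ hp]
    rw [Nat.log_eq_iff (Or.inl one_ne_zero)]
    constructor
    · rw [pow_one]; omega
    · rw [pow_succ, pow_one]
      exact Nat.mul_lt_mul_of_pos_right (by omega) (by omega)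
  obtain ⟨e, n', h2, h3⟩ := Nat.exists_eq_pow_mul_and_not_dvd (Nat.lcmUpto_ne_zero (4 * p)) p
    hp.ne_one
  have h4 : e = 1 := by
    rw [h3, Nat.factorization_mul (pow_ne_zero _ hp.ne_zero) (by rintro rfl; exact h2 (dvd_zero p)),
      hp.factorization_pow, Finsupp.add_apply, Finsupp.single_eq_same,
      Nat.factorization_eq_zero_of_not_dvd h2] at h1
    omega
  rw [h4, pow_one] at h3
  exact ⟨n', h3, h2⟩

theorem ip_LL (p : ℕ) [Fact p.Prime] (F : ℤ[X]) :
    ip p (LL (2 * p) F) = DD p * derivative (ip p F) + X * ip p F := by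
  unfold ip
  rw [LL_map]
  unfold LL DD
  have h : ((2 * p : ℕ) : (ZMod p)[X]) = 0 := by
    have : ((2 * p : ℕ) : ZMod p) = 0 := by simp
    rw [← map_natCast (C : ZMod p →+* (ZMod p)[X]), this, map_zero]
  rw [h]
  ring

theorem exists_lift (p : ℕ) [Fact p.Prime] (g : (ZMod p)[X]) : ∃ G : ℤ[X], ip p G = g :=
  Polynomial.map_surjective _ (ZMod.intCast_surjective) g

theorem dvd_of_ip (p : ℕ) [Fact p.Prime] (F : ℤ[X]) (h : ip p F = 0) :
    ∃ U : ℤ[X], F = (p : ℤ[X]) * U := by
  have h1 : (C (p : ℤ) : ℤ[X]) ∣ F := by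
    rw [C_dvd_iff_dvd_coeff]
    intro i
    have h2 := congrArg (fun f => f.coeff i) h
    simp only [ip, coeff_map, coeff_zero, eq_intCast] at h2
    exact (ZMod.intCast_zmod_eq_zero_iff_dvd _ _).1 h2
  obtain ⟨U, hU⟩ := h1
  refine ⟨U, ?_⟩
  rw [hU]
  simp

/-- PH7 -/
theorem lev2 (h : S_ode) : S_lev2 := by
  intro p _ hp R hR
  have hpp : p.Prime := Fact.out
  have hodd := odd_p hp
  obtain ⟨k, Φ, hΦd, hΦ, hSl⟩ := sol_int p (by omega) (4 * p) (by omega) R (by omega)
  obtain ⟨L', hL, hL'⟩ := lcm_eq p hpp hp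
  obtain ⟨hk, hPf⟩ := eq_of_Sl (by omega) hSl
  -- modulo p
  have h1 : ip p (LL (2 * p) Φ) = 0 := by
    rw [hΦ, hL]
    unfold ip
    rw [Polynomial.map_mul, Polynomial.map_mul, Polynomial.map_natCast]
    have : ((p * L' : ℕ) : (ZMod p)[X]) = 0 := by
      rw [← map_natCast (C : ZMod p →+* (ZMod p)[X])]
      simp
    rw [this]
    ring
  rw [ip_LL] at h1
  obtain ⟨g, hg⟩ := h p (by omega) (ip p Φ) h1
  -- the degree of g
  have hgd : g.natDegree ≤ 7 := by
    by_cases hg0 : g = 0
    · rw [hg0]; simp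
    have h2 : (ip p Φ).natDegree ≤ 8 * p - 1 := by
      refine (natDegree_map_le).trans ?_
      omega
    rw [hg, EE_monic.natDegree_mul' ((expand_ne_zero hpp.pos).2 hg0), natDegree_EE hp,
      natDegree_expand] at h2
    by_contra h3
    have h4 : 8 * p ≤ g.natDegree * p := Nat.mul_le_mul_right p (by omega)
    omega
  obtain ⟨Gt, hGt⟩ := exists_lift p g
  obtain ⟨U, hU⟩ := dvd_of_ip p (Φ - (X ^ 2 - 8) ^ ((p - 1) / 2) * expand ℤ p Gt) (by
    have e1 : ip p ((X ^ 2 - 8) ^ ((p - 1) / 2) * expand ℤ p Gt) = EE p * expand (ZMod p) p g := by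
      unfold ip EE
      rw [Polynomial.map_mul, map_expand, Polynomial.map_pow, Polynomial.map_sub,
        Polynomial.map_pow, map_X, Polynomial.map_ofNat]
      congr 1
      rw [← hGt]; rfl
    unfold ip at e1 hg ⊢
    rw [Polynomial.map_sub, e1, hg, sub_self])
  have hΦ2 : Φ = (X ^ 2 - 8) ^ ((p - 1) / 2) * expand ℤ p Gt + (p : ℤ[X]) * U := by
    rw [← hU]; ring
  -- division by p
  have h5 : ((X ^ 2 - 8) ^ ((p - 1) / 2) *
        (-3 * X * expand ℤ p Gt + (X ^ 2 - 8) * X ^ (p - 1) * expand ℤ p (derivative Gt))) +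
        LL (2 * p) U = 8 ^ (2 * p) * (L' : ℤ[X]) * (R * WW ℤ p - C k * (X ^ 2 - 8) ^ (2 * p)) := by
    have h6 : LL (2 * p) ((p : ℤ[X]) * U) = (p : ℤ[X]) * LL (2 * p) U := by
      have := LL_C_mul (2 * p) (p : ℤ) U
      simpa using this
    have h7 := hΦ
    rw [hΦ2, LL_add, LL_EG p hodd (by omega), h6, hL] at h7
    have h8 : (p : ℤ[X]) ≠ 0 := by exact_mod_cast hpp.ne_zero
    apply mul_left_cancel₀ h8
    rw [mul_add, h7]
    push_cast
    ring
  -- reduction mod p
  have h9 : EE p * (-3 * X * expand (ZMod p) p g + DD p * X ^ (p - 1) *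
      expand (ZMod p) p (derivative g)) + (DD p * derivative (ip p U) + X * ip p U) =
      8 ^ (2 * p) * (L' : (ZMod p)[X]) * (ip p R * WW (ZMod p) p -
        C (k : ZMod p) * DD p ^ (2 * p)) := by
    have h10 := congrArg (ip p) h5
    have h11 : ip p (((X ^ 2 - 8) ^ ((p - 1) / 2) *
        (-3 * X * expand ℤ p Gt + (X ^ 2 - 8) * X ^ (p - 1) * expand ℤ p (derivative Gt))) +
        LL (2 * p) U) = EE p * (-3 * X * expand (ZMod p) p g + DD p * X ^ (p - 1) *
      expand (ZMod p) p (derivative g)) + ip p (LL (2 * p) U) := by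
      unfold ip at hGt ⊢
      rw [Polynomial.map_add]
      congr 1
      rw [← hGt]
      unfold EE DD
      simp only [Polynomial.map_add, Polynomial.map_sub, Polynomial.map_mul, Polynomial.map_pow,
        Polynomial.map_X, Polynomial.map_ofNat, map_expand, Polynomial.map_neg, derivative_map]
    rw [h11, ip_LL] at h10
    have hkc : (C k : ℤ[X]).map (Int.castRingHom (ZMod p)) = C (k : ZMod p) := by
      rw [Polynomial.map_C, eq_intCast]
    rw [h10]
    unfold ip
    simp only [Polynomial.map_sub, Polynomial.map_mul, Polynomial.map_pow,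
        Polynomial.map_X, Polynomial.map_ofNat, Polynomial.map_natCast, WW_map, hkc]
  -- the weight
  have hW : WW (ZMod p) p = expand (ZMod p) p ((X - 2) ^ 2 * (X - 3) ^ 4) := by
    rw [ZMod.expand_card]
    unfold WW
    rw [mul_pow, ← pow_mul, ← pow_mul]
  have hD2 : DD p ^ (2 * p) = expand (ZMod p) p (DD p ^ 2) := by
    rw [ZMod.expand_card, ← pow_mul]
  set u : ZMod p := 8 ^ (2 * p) * (L' : ZMod p) with hu
  have hu0 : u ≠ 0 := by
    rw [hu]
    refine mul_ne_zero (pow_ne_zero _ ?_) ?_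
    · intro h8
      have h9 : ((8 : ℕ) : ZMod p) = 0 := by exact_mod_cast h8
      rw [ZMod.natCast_eq_zero_iff] at h9
      have := Nat.le_of_dvd (by norm_num) h9
      omega
    · rw [Ne, ZMod.natCast_eq_zero_iff]
      exact hL'
  have hCu : (8 ^ (2 * p) * (L' : (ZMod p)[X])) = C u := by
    rw [hu, C_mul, C_pow, map_ofNat, map_natCast]
  rw [hCu] at h9
  have h12 : (C (-3) * (X * DD p ^ (p - 1) * expand (ZMod p) p g) +
      X ^ (p - 1) * expand (ZMod p) p (DD p * derivative g)) +
      EE p * (DD p * derivative (ip p U) + X * ip p U) =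
      C u * (EE p * ip p R * expand (ZMod p) p ((X - 2) ^ 2 * (X - 3) ^ 4) -
        C (k : ZMod p) * (EE p * expand (ZMod p) p (DD p ^ 2))) := by
    have h13 : EE p * EE p = DD p ^ (p - 1) := EE_sq hp
    have h14 : DD p ^ (p - 1) * DD p = expand (ZMod p) p (DD p) := by
      rw [expand_DD, ← pow_succ]
      congr 1
      omega
    rw [← hW, ← hD2, map_mul, ← h14, C_neg, map_ofNat]
    linear_combination EE p * h9 + (-(-3 * X * expand (ZMod p) p g + DD p * X ^ (p - 1) *
      expand (ZMod p) p (derivative g))) * h13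
  have h15 := congrArg (kap p) h12
  rw [kap_add, kap_add, kap_C_mul, kap_mul_expand, kap_XD hp, kap_mul_expand, kap_Xp hp,
    kap_EEL hp, kap_C_mul, kap_sub, kap_mul_expand, kap_C_mul, kap_mul_expand, kap_EE hp,
    kap_rho hp (ip p R) ((natDegree_map_le).trans hR)] at h15
  have h16 : LL 2 g = C u * ((X - 2) ^ 2 * (X - 3) ^ 4 *
      (C (rho p (ip p R) 0) + C (rho p (ip p R) 1) * X + C (rho p (ip p R) 2) * X ^ 2)
      - C (k : ZMod p) * (X ^ 2 - 8) ^ 2) := by
    have hX : (X : (ZMod p)[X]) ≠ 0 := X_ne_zero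
    apply mul_left_cancel₀ hX
    unfold LL
    rw [C_neg, map_ofNat] at h15
    unfold DD at h15
    push_cast
    linear_combination h15
  refine ⟨k, C u⁻¹ * g, hk, ?_, ?_, ?_⟩
  · exact (natDegree_C_mul_le _ _).trans hgd
  · rw [LL_C_mul, h16, ← mul_assoc, ← C_mul, inv_mul_cancel₀ hu0, C_1, one_mul]
  · refine ⟨8 * Φ.eval 2, 16 ^ p * (8 ^ (2 * p) * L'), ?_, ?_, ?_⟩
    · intro hd
      rcases (Nat.Prime.dvd_mul hpp).1 hd with h1 | h1
      · have := Nat.le_of_dvd (by norm_num) (hpp.dvd_of_dvd_pow (show p ∣ 2 ^ (4 * p) by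
          rw [pow_mul]; exact h1))
        omega
      · rcases (Nat.Prime.dvd_mul hpp).1 h1 with h1 | h1
        · have := Nat.le_of_dvd (by norm_num) (hpp.dvd_of_dvd_pow h1)
          have h11 : p ∣ 2 ^ (3 * (2 * p)) := by rw [pow_mul]; exact h1
          have := Nat.le_of_dvd (by norm_num) (hpp.dvd_of_dvd_pow h11)
          omega
        · exact hL' h1
    · unfold bf
      have e0 : iq R = R.map (Int.castRingHom ℚ) := rfl
      have hL0 : (L' : ℚ) ≠ 0 := by
        intro h0
        apply hL'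
        have : L' = 0 := by exact_mod_cast h0
        rw [this]
        exact dvd_zero p
      have hp0 : (p : ℚ) ≠ 0 := by exact_mod_cast hpp.ne_zero
      have e1 : (Φ.map (Int.castRingHom ℚ)).eval 2 = ((Φ.eval 2 : ℤ) : ℚ) := by
        have := Polynomial.eval_map (Int.castRingHom ℚ) (2 : ℚ) (p := Φ)
        rw [this]
        have e2 := Polynomial.eval₂_hom (Int.castRingHom ℚ) (2 : ℤ) (p := Φ)
        simpa using e2
      rw [e0, hPf, eval_mul, eval_C, hL, e1]
      push_cast
      field_simp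
    · have hE : ((Φ.eval 2 : ℤ) : ZMod p) = (-1) ^ ((p - 1) / 2) * g.eval 2 := by
        have e1 : (ip p Φ).eval 2 = ((Φ.eval 2 : ℤ) : ZMod p) := by
          unfold ip
          have := Polynomial.eval_map (Int.castRingHom (ZMod p)) (2 : ZMod p) (p := Φ)
          rw [this]
          have e2 := Polynomial.eval₂_hom (Int.castRingHom (ZMod p)) (2 : ℤ) (p := Φ)
          simpa using e2
        rw [← e1, hg, eval_mul, expand_eval, ZMod.pow_card]
        congr 1
        unfold EE
        rw [eval_pow, eval_sub, eval_pow, eval_X, eval_ofNat]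
        have e3 : (2 ^ 2 - 8 : ZMod p) = (-1) * 2 ^ 2 := by ring
        rw [e3, mul_pow, ← pow_mul, hodd, ZMod.pow_card_sub_one_eq_one, mul_one]
        intro h2
        have h9 : ((2 : ℕ) : ZMod p) = 0 := by exact_mod_cast h2
        rw [ZMod.natCast_eq_zero_iff] at h9
        have := Nat.le_of_dvd (by norm_num) h9
        omega
      have h16' : (16 : ZMod p) ≠ 0 := by
        intro h2
        have h9 : ((16 : ℕ) : ZMod p) = 0 := by exact_mod_cast h2
        rw [ZMod.natCast_eq_zero_iff] at h9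
        have h10 : p ∣ 2 := hpp.dvd_of_dvd_pow (show p ∣ 2 ^ 4 by norm_num; exact h9)
        have := Nat.le_of_dvd (by norm_num) h10
        omega
      have e4 : ((16 ^ p * (8 ^ (2 * p) * L') : ℕ) : ZMod p) = 16 * u := by
        push_cast
        rw [ZMod.pow_card]
      rw [e4, eval_mul, eval_C]
      push_cast
      rw [hE]
      field_simp

end Pool.Agent.Y858.PiH
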